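import Mathlib

-- part Pool.Agent.Lib.MP_5d54af_an.Tools
section

set_option autoImplicit false

open Metric Filter Topology Asymptotics

namespace Pool.Agent.Lib.MP_5d54af_an

theorem diff_of_hasSum {a : ℕ → ℂ} {f : ℂ → ℂ}
    (h : ∀ z : ℂ, HasSum (fun k : ℕ => a k * z ^ k) (f z)) : Differentiable ℂ f := by
  intro z
  set R : ℝ := ‖z‖ + 1 with hR
  have hR0 : 0 ≤ R := by positivity
  have hs : Summable fun k : ℕ => ‖a k * (R : ℂ) ^ k‖ := (h (R : ℂ)).summable.norm
  have hd : DifferentiableOn ℂ (fun w : ℂ => ∑' k : ℕ, a k * w ^ k) (ball 0 R) := by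
    refine Complex.differentiableOn_tsum_of_summable_norm hs (fun k => by fun_prop) isOpen_ball ?_
    intro k w hw
    rw [mem_ball_zero_iff] at hw
    simp only [norm_mul, norm_pow, Complex.norm_real, Real.norm_eq_abs, abs_of_nonneg hR0]
    gcongr
  have he : (fun w : ℂ => ∑' k : ℕ, a k * w ^ k) = f := funext fun w => (h w).tsum_eq
  rw [he] at hd
  exact hd.differentiableAt (isOpen_ball.mem_nhds (by rw [mem_ball_zero_iff]; linarith))

theorem cauchy {a : ℕ → ℂ} {f : ℂ → ℂ}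
    (h : ∀ z : ℂ, HasSum (fun k : ℕ => a k * z ^ k) (f z)) {R C : ℝ} (hR : 0 < R)
    (hC : ∀ z ∈ sphere (0 : ℂ) R, ‖f z‖ ≤ C) (n : ℕ) : ‖a n‖ * R ^ n ≤ C := by
  have hd := diff_of_hasSum h
  have h1 : HasFPowerSeriesAt f (FormalMultilinearSeries.ofScalars ℂ a) 0 := by
    rw [hasFPowerSeriesAt_iff]
    refine Eventually.of_forall fun z => ?_
    simpa [FormalMultilinearSeries.coeff_ofScalars, mul_comm] using h z
  have h2 := (hd.analyticAt 0).hasFPowerSeriesAt
  have h3 := h1.eq_formalMultilinearSeries h2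
  have h4 : a n = iteratedDeriv n f 0 / n.factorial := by
    have := congrArg (fun p : FormalMultilinearSeries ℂ ℂ ℂ => p.coeff n) h3
    simpa [FormalMultilinearSeries.coeff_ofScalars] using this
  have h5 := Complex.norm_iteratedDeriv_le_of_forall_mem_sphere_norm_le n hR hd.diffContOnCl hC
  have hf : (0 : ℝ) < n.factorial := by exact_mod_cast n.factorial_pos
  rw [h4, norm_div, Complex.norm_natCast]
  rw [le_div_iff₀ (by positivity)] at h5
  rw [div_mul_eq_mul_div, div_le_iff₀ hf]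
  linarith

theorem jensen_ineq {ψ : ℂ → ℂ} (hψ : Differentiable ℂ ψ) (h0 : ψ 0 ≠ 0) {s : ℝ} (hs : 0 < s) :
    Real.log ‖ψ 0‖ ≤ Real.circleAverage (fun z => Real.log ‖ψ z‖) 0 s := by
  have ha : AnalyticOnNhd ℂ ψ (closedBall 0 |s|) := fun z _ => hψ.analyticAt z
  rw [ha.circleAverage_log_norm hs.ne' h0]
  refine le_add_of_nonneg_left (finsum_nonneg fun u => ?_)
  by_cases hu : u ∈ closedBall (0 : ℂ) |s|
  · refine mul_nonneg (by exact_mod_cast MeromorphicOn.AnalyticOnNhd.divisor_nonneg ha u) ?_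
    rcases eq_or_ne u 0 with rfl | hu0
    · simp
    · apply Real.log_nonneg
      rw [mem_closedBall_zero_iff, abs_of_pos hs] at hu
      rw [zero_sub, norm_neg, ← div_eq_mul_inv, one_le_div (norm_pos_iff.2 hu0)]
      exact hu
  · simp [hu]

theorem poisson_bound {f : ℂ → ℂ} (hf : Differentiable ℂ f) (hne : ∀ z, f z ≠ 0) (h0 : f 0 = 1)
    {s B : ℝ} {w : ℂ} (hw : ‖w‖ < s)
    (hB : Real.circleAverage (fun z => max (Real.log ‖f z‖) 0) 0 s ≤ B) :
    |Real.log ‖f w‖| ≤ (s + ‖w‖) / (s - ‖w‖) * B := by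
  have hs : 0 < s := (norm_nonneg w).trans_lt hw
  set u : ℂ → ℝ := fun z => Real.log ‖f z‖ with hu
  have huc : Continuous u := hf.continuous.norm.log (fun z => norm_ne_zero_iff.2 (hne z))
  have hharm : InnerProductSpace.HarmonicOnNhd u (closedBall 0 s) :=
    fun x _ => (hf.analyticAt x).harmonicAt_log_norm (hne x)
  have hwb : w ∈ ball (0 : ℂ) s := mem_ball_zero_iff.2 hw
  have hP := hharm.circleAverage_re_herglotzRieszKernel_smul hwb
  have hmean : Real.circleAverage u 0 s = 0 := by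
    have ha : AnalyticOnNhd ℂ f (closedBall 0 |s|) := fun z _ => hf.analyticAt z
    have := ha.circleAverage_log_norm_of_ne_zero (fun z _ => hne z)
    simpa [h0] using this
  set C := (s + ‖w‖) / (s - ‖w‖) with hC
  have hC0 : 0 ≤ C := div_nonneg (by positivity) (by linarith)
  have hK : ∀ z ∈ sphere (0 : ℂ) |s|, 0 ≤ (herglotzRieszKernel 0 w z).re ∧
      (herglotzRieszKernel 0 w z).re ≤ C := by
    intro z hz
    rw [abs_of_pos hs] at hz
    have h1 := re_herglotzRieszKernel_le hz hwb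
    have h2 := le_re_herglotzRieszKernel hz hwb
    rw [herglotzRieszKernel_def]
    simp only [sub_zero] at h1 h2 ⊢
    exact ⟨le_trans (div_nonneg (by linarith) (by positivity)) h2, h1⟩
  have hKc : ContinuousOn (Complex.re ∘ herglotzRieszKernel 0 w) (sphere (0 : ℂ) |s|) :=
    Complex.continuous_re.comp_continuousOn (continuousOn_herglotzRieszKernel_sphere hwb)
  have hint : CircleIntegrable ((Complex.re ∘ herglotzRieszKernel 0 w) • u) 0 s :=
    (hKc.smul huc.continuousOn).circleIntegrable'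
  have hp : CircleIntegrable (fun z => max (u z) 0) 0 s :=
    (huc.max continuous_const).continuousOn.circleIntegrable'
  have hui : CircleIntegrable u 0 s := huc.continuousOn.circleIntegrable'
  rw [abs_le]
  constructor
  · have h1 : Real.circleAverage (fun z => (-C) • (max (u z) 0 - u z)) 0 s ≤
        Real.circleAverage ((Complex.re ∘ herglotzRieszKernel 0 w) • u) 0 s := by
      refine Real.circleAverage_mono ?_ hint ?_
      · have : Continuous fun z => (-C) • (max (u z) 0 - u z) := by fun_prop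
        exact this.continuousOn.circleIntegrable'
      · intro z hz
        obtain ⟨k1, k2⟩ := hK z hz
        simp only [smul_eq_mul, Pi.smul_apply', Function.comp_apply]
        rcases le_total (u z) 0 with h | h
        · rw [max_eq_right h]; nlinarith
        · rw [max_eq_left h]; nlinarith
    rw [hP, Real.circleAverage_fun_smul, Real.circleAverage_fun_sub hp hui, hmean] at h1
    simp only [smul_eq_mul, sub_zero] at h1
    have := mul_le_mul_of_nonneg_left hB hC0
    linarith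
  · have h1 : Real.circleAverage ((Complex.re ∘ herglotzRieszKernel 0 w) • u) 0 s ≤
        Real.circleAverage (fun z => C • (max (u z) 0)) 0 s := by
      refine Real.circleAverage_mono hint ?_ ?_
      · have : Continuous fun z => C • (max (u z) 0) := by fun_prop
        exact this.continuousOn.circleIntegrable'
      · intro z hz
        obtain ⟨k1, k2⟩ := hK z hz
        simp only [smul_eq_mul, Pi.smul_apply', Function.comp_apply]
        rcases le_total (u z) 0 with h | h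
        · rw [max_eq_right h]; nlinarith
        · rw [max_eq_left h]; nlinarith
    rw [hP, Real.circleAverage_fun_smul] at h1
    simp only [smul_eq_mul] at h1
    have := mul_le_mul_of_nonneg_left hB hC0
    linarith

theorem exists_log {q : ℂ → ℂ} {s : ℝ} (hs : 0 < s) (hq : DifferentiableOn ℂ q (ball 0 s))
    (hne : ∀ z ∈ ball (0 : ℂ) s, q z ≠ 0) (h0 : q 0 = 1) :
    ∃ k : ℂ → ℂ, DifferentiableOn ℂ k (ball 0 s) ∧ k 0 = 0 ∧
      ∀ z ∈ ball (0 : ℂ) s, Complex.exp (k z) = q z := by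
  have hd : DifferentiableOn ℂ (fun z => deriv q z / q z) (ball 0 s) :=
    (hq.deriv isOpen_ball).div hq hne
  obtain ⟨k, hk0, hk⟩ := hd.isExactOn_ball.with_val_at 0 0
  have hkd : DifferentiableOn ℂ k (ball 0 s) :=
    fun z hz => (hk z hz).differentiableAt.differentiableWithinAt
  refine ⟨k, hkd, hk0, ?_⟩
  have hF : ∀ z ∈ ball (0 : ℂ) s, HasDerivAt (fun z => q z * Complex.exp (-k z)) 0 z := by
    intro z hz
    have h1 := (hq.differentiableAt (isOpen_ball.mem_nhds hz)).hasDerivAt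
    have h2 := (hk z hz).neg.cexp
    have h3 := h1.mul h2
    have h4 : deriv q z * Complex.exp (-k z) + q z * (Complex.exp (-k z) * -(deriv q z / q z))
        = 0 := by
      have := hne z hz
      field_simp
      ring
    rw [← h4]
    exact h3
  intro z hz
  have h4 : q z * Complex.exp (-k z) = q 0 * Complex.exp (-k 0) := by
    refine isOpen_ball.is_const_of_deriv_eq_zero (convex_ball (0 : ℂ) s).isPreconnected
      (f := fun z => q z * Complex.exp (-k z))
      (fun z hz => (hF z hz).differentiableAt.differentiableWithinAt)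
      (fun z hz => (hF z hz).deriv) hz (mem_ball_self hs)
  rw [h0, hk0, neg_zero, Complex.exp_zero, one_mul, Complex.exp_neg,
    mul_inv_eq_one₀ (Complex.exp_ne_zero _)] at h4
  exact h4.symm

theorem core {h : ℂ → ℂ} {s M τ : ℝ} {n : ℕ} (hs : 0 < s) (hM : 0 < M)
    (hd : DifferentiableOn ℂ h (ball 0 s)) (hne : ∀ z ∈ ball (0 : ℂ) s, h z ≠ 1)
    (hO : h =O[𝓝 0] fun z : ℂ => z ^ (n + 1))
    (hb : ∀ z ∈ ball (0 : ℂ) s, ‖1 - h z‖ ≤ Real.exp M)
    (hτ1 : τ ≤ 1 / 2) (hτ2 : 8 * M * τ ≤ 1) {z : ℂ} (hz : z ∈ ball (0 : ℂ) s)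
    (hzτ : (‖z‖ / s) ^ (n + 1) ≤ τ) : ‖h z‖ ≤ 1 := by
  have hmem : ball (0 : ℂ) s ∈ 𝓝 (0 : ℂ) := ball_mem_nhds _ hs
  have h0 : h 0 = 0 := by
    have := hO.eq_zero_imp.self_of_nhds
    exact this (by simp)
  obtain ⟨k, hkd, hk0, hk⟩ := exists_log (q := fun z => 1 - h z) hs (hd.const_sub 1)
    (fun z hz => sub_ne_zero.2 (hne z hz).symm) (by simp [h0])
  have hre : ∀ z ∈ ball (0 : ℂ) s, (k z).re ≤ M := by
    intro z hz
    have h1 := hb z hz
    rw [← hk z hz, Complex.norm_exp] at h1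
    exact Real.exp_le_exp.1 h1
  have hden : ∀ z ∈ ball (0 : ℂ) s, ‖k z‖ ≤ ‖2 * (M : ℂ) - k z‖ ∧ M ≤ ‖2 * (M : ℂ) - k z‖ := by
    intro z hz
    have h1 := hre z hz
    constructor
    · rw [← sq_le_sq₀ (by positivity) (by positivity)]
      suffices (k z).re * (k z).re ≤ (2 * M - (k z).re) * (2 * M - (k z).re) by
        simpa [Complex.sq_norm, Complex.normSq_apply]
      nlinarith
    · refine le_trans ?_ (Complex.re_le_norm _)
      simp
      linarith
  have hden0 : ∀ z ∈ ball (0 : ℂ) s, 2 * (M : ℂ) - k z ≠ 0 := by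
    intro z hz h1
    have := (hden z hz).2
    rw [h1, norm_zero] at this
    linarith
  set w : ℂ → ℂ := fun z => k z / (2 * (M : ℂ) - k z) with hw
  have hw0 : w 0 = 0 := by simp [hw, hk0]
  have hwd : DifferentiableOn ℂ w (ball 0 s) := hkd.div (hkd.const_sub _) hden0
  have hmaps : Set.MapsTo w (ball 0 s) (closedBall (w 0) 1) := by
    intro z hz
    rw [hw0, mem_closedBall_zero_iff, hw]
    simp only [norm_div]
    exact div_le_one_of_le₀ (hden z hz).1 (norm_nonneg _)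
  have hkc : Tendsto k (𝓝 0) (𝓝 0) := by
    have := (hkd.differentiableAt hmem).continuousAt.tendsto
    rwa [hk0] at this
  have hwO : w =O[𝓝 0] h := by
    refine IsBigO.of_bound (2 / M) ?_
    have e1 : ∀ᶠ z in 𝓝 (0 : ℂ), ‖k z‖ < 1 / 2 := by
      have := hkc.norm
      rw [norm_zero] at this
      exact this.eventually (gt_mem_nhds (by norm_num))
    filter_upwards [e1, hmem] with z hz1 hz2
    have h1 := Complex.norm_exp_sub_one_sub_id_le (x := k z) (by linarith)
    have h2 : Complex.exp (k z) - 1 = - h z := by rw [hk z hz2]; ring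
    have h3 : ‖k z‖ ≤ ‖h z‖ + ‖k z‖ ^ 2 := by
      calc ‖k z‖ = ‖- h z - (Complex.exp (k z) - 1 - k z)‖ := by rw [h2]; congr 1; ring
        _ ≤ ‖- h z‖ + ‖Complex.exp (k z) - 1 - k z‖ := norm_sub_le _ _
        _ ≤ _ := by rw [norm_neg]; linarith
    have h4 : ‖k z‖ ≤ 2 * ‖h z‖ := by nlinarith [norm_nonneg (k z)]
    simp only [hw, norm_div]
    calc ‖k z‖ / ‖2 * (M : ℂ) - k z‖ ≤ (2 * ‖h z‖) / M := by
          gcongr
          exact (hden z hz2).2
      _ = 2 / M * ‖h z‖ := by ring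
  have hlo : (fun z => w z - w 0) =o[𝓝 0] fun z : ℂ => ‖z - 0‖ ^ n := by
    simp only [hw0, sub_zero]
    refine (hwO.trans hO).trans_isLittleO ?_
    have := (isLittleO_pow_pow (𝕜 := ℂ) (Nat.lt_succ_self n)).norm_right
    simpa using this
  have hS := Complex.dist_le_mul_div_pow_of_mapsTo_ball_of_isLittleO hwd hmaps hlo hz
  rw [hw0, dist_zero_right, dist_zero_right, one_mul] at hS
  have hwz : ‖w z‖ ≤ τ := hS.trans hzτ
  have hτ0 : 0 ≤ τ := (norm_nonneg _).trans hwz
  have hk1 : ‖k z‖ ≤ τ * (2 * M + ‖k z‖) := by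
    have e : k z = w z * (2 * (M : ℂ) - k z) := by
      simp only [hw]; rw [div_mul_cancel₀ _ (hden0 z hz)]
    calc ‖k z‖ = ‖w z‖ * ‖2 * (M : ℂ) - k z‖ := by rw [← norm_mul, ← e]
      _ ≤ τ * (2 * M + ‖k z‖) := by
        gcongr
        refine (norm_sub_le _ _).trans ?_
        simp [abs_of_pos hM]
  have hk2 : ‖k z‖ ≤ 1 / 2 := by nlinarith [norm_nonneg (k z)]
  have h5 := Complex.norm_exp_sub_one_le (x := k z) (by linarith)
  have h6 : Complex.exp (k z) - 1 = - h z := by rw [hk z hz]; ring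
  rw [h6, norm_neg] at h5
  linarith

end Pool.Agent.Lib.MP_5d54af_an
end

-- part Pool.Agent.Lib.MP_5d54af_an.Main
section

set_option autoImplicit false

open Metric Filter Topology Asymptotics

namespace Pool.Agent.Lib.MP_5d54af_an

theorem multiset_bounds (ρ : ℝ) (hρ : 0 ≤ ρ) (t : Multiset ℂ) (ht : ∀ ζ ∈ t, ρ ≤ ‖ζ‖) :
    ρ ^ t.card ≤ ‖(t.map (fun ζ => (0 : ℂ) - ζ)).prod‖ ∧ ∀ z : ℂ, ‖z‖ ≤ ρ →
      ‖(t.map (fun ζ => z - ζ)).prod‖ ≤ 2 ^ t.card * ‖(t.map (fun ζ => (0 : ℂ) - ζ)).prod‖ := by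
  induction t using Multiset.induction_on with
  | empty => simp
  | cons ζ t ih =>
    obtain ⟨h1, h2⟩ := ih (fun x hx => ht x (Multiset.mem_cons_of_mem hx))
    have hζ := ht ζ (Multiset.mem_cons_self _ _)
    simp only [Multiset.map_cons, Multiset.prod_cons, Multiset.card_cons, norm_mul, pow_succ]
    rw [zero_sub ζ, norm_neg]
    constructor
    · rw [mul_comm]
      gcongr
    · intro z hz
      have h3 : ‖z - ζ‖ ≤ 2 * ‖ζ‖ := (norm_sub_le _ _).trans (by linarith)
      calc _ ≤ (2 * ‖ζ‖) * (2 ^ t.card * ‖(t.map (fun ζ => (0 : ℂ) - ζ)).prod‖) := by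
            gcongr
            exact h2 z hz
        _ = _ := by ring

theorem poly_bounds (a : ℕ → ℂ) (N : ℕ) (h0 : a 0 = 1) (hN : a N ≠ 0) {ρ : ℝ} (hρ : 0 ≤ ρ)
    (hz : ∀ z : ℂ, ‖z‖ ≤ ρ → ∑ k ∈ Finset.range (N + 1), a k * z ^ k ≠ 0) :
    ‖a N‖ * ρ ^ N ≤ 1 ∧
      ∀ z : ℂ, ‖z‖ ≤ ρ → ‖∑ k ∈ Finset.range (N + 1), a k * z ^ k‖ ≤ 2 ^ N := by
  set P : Polynomial ℂ := ∑ k ∈ Finset.range (N + 1), Polynomial.monomial k (a k) with hP
  have hev : ∀ z, P.eval z = ∑ k ∈ Finset.range (N + 1), a k * z ^ k := by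
    intro z; simp [hP, Polynomial.eval_finsetSum]
  have hco : P.coeff N = a N := by
    simp [hP, Polynomial.coeff_monomial]
  have hdeg : P.natDegree = N := by
    apply Polynomial.natDegree_eq_of_le_of_coeff_ne_zero
    · refine Polynomial.natDegree_sum_le_of_forall_le _ _ fun k hk => ?_
      exact (Polynomial.natDegree_monomial_le _).trans (Nat.lt_succ_iff.1 (Finset.mem_range.1 hk))
    · rwa [hco]
  have hlc : P.leadingCoeff = a N := by rw [Polynomial.leadingCoeff, hdeg, hco]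
  have hsp := IsAlgClosed.splits P
  have hcard : P.roots.card = N := by rw [← hsp.natDegree_eq_card_roots, hdeg]
  have hroots : ∀ ζ ∈ P.roots, ρ ≤ ‖ζ‖ := by
    intro ζ hζ
    by_contra hlt
    have := Polynomial.isRoot_of_mem_roots hζ
    rw [Polynomial.IsRoot, hev] at this
    exact hz ζ (le_of_lt (not_le.1 hlt)) this
  obtain ⟨h1, h2⟩ := multiset_bounds ρ hρ P.roots hroots
  rw [hcard] at h1 h2
  have h3 : ‖a N‖ * ‖(P.roots.map (fun ζ => (0 : ℂ) - ζ)).prod‖ = 1 := by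
    rw [← norm_mul, ← hlc, ← hsp.eval_eq_prod_roots, hev, Finset.sum_range_succ']
    simp [h0]
  constructor
  · rw [← h3]; gcongr
  · intro z hz
    rw [← hev, hsp.eval_eq_prod_roots, norm_mul, hlc]
    calc _ ≤ ‖a N‖ * (2 ^ N * ‖(P.roots.map (fun ζ => (0 : ℂ) - ζ)).prod‖) := by
          gcongr
          exact h2 z hz
      _ = 2 ^ N * (‖a N‖ * ‖(P.roots.map (fun ζ => (0 : ℂ) - ζ)).prod‖) := by ring
      _ = _ := by rw [h3, mul_one]

theorem growth {u : ℂ → ℝ} (hu : Continuous u) (hub : ∀ B : ℝ, ∃ z, B ≤ |u z|) (j₀ : ℕ) :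
    ∃ j : ℕ, j₀ ≤ j ∧ ∃ r : ℝ, 0 < r ∧ ∃ z₀ : ℂ, ‖z₀‖ ≤ r ∧ ((2 : ℝ) ^ j) ^ 4 ≤ |u z₀| ∧
      ∀ z : ℂ, ‖z‖ ≤ r * Real.exp (3 / 2 ^ j) → |u z| ≤ 16 * ((2 : ℝ) ^ j) ^ 4 := by
  by_contra hcon
  push Not at hcon
  obtain ⟨z₀, hz₀⟩ := hub (((2 : ℝ) ^ j₀) ^ 4)
  set R : ℝ := (‖z₀‖ + 1) * Real.exp (6 / 2 ^ j₀) with hR
  have hR0 : 0 < R := by positivity
  have key : ∀ i : ℕ, ∃ z : ℂ, ‖z‖ ≤ R * Real.exp (-6 / 2 ^ (j₀ + i)) ∧
      ((2 : ℝ) ^ (j₀ + i)) ^ 4 ≤ |u z| := by
    intro i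
    induction i with
    | zero =>
      refine ⟨z₀, ?_, by simpa using hz₀⟩
      rw [hR, mul_assoc, ← Real.exp_add, add_zero]
      have : (6 : ℝ) / 2 ^ j₀ + -6 / 2 ^ j₀ = 0 := by ring
      rw [this, Real.exp_zero]; linarith
    | succ i ih =>
      obtain ⟨z, hz1, hz2⟩ := ih
      obtain ⟨w, hw1, hw2⟩ := hcon (j₀ + i) (Nat.le_add_right _ _) _ (by positivity) z hz1 hz2
      refine ⟨w, ?_, ?_⟩
      · rw [mul_assoc, ← Real.exp_add] at hw1
        have : (-6 : ℝ) / 2 ^ (j₀ + i) + 3 / 2 ^ (j₀ + i) = -6 / 2 ^ (j₀ + (i + 1)) := by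
          rw [← add_assoc, pow_succ]; field_simp; ring
        rwa [this] at hw1
      · rw [← add_assoc, pow_succ (2 : ℝ) (j₀ + i), mul_pow]
        linarith
  obtain ⟨B, hB⟩ := (isCompact_closedBall (0 : ℂ) R).exists_bound_of_continuousOn hu.continuousOn
  obtain ⟨i, hi⟩ := pow_unbounded_of_one_lt B (one_lt_two (α := ℝ))
  obtain ⟨z, hz1, hz2⟩ := key i
  have h1 : ‖z‖ ≤ R := by
    refine hz1.trans (mul_le_of_le_one_right hR0.le ?_)
    rw [Real.exp_le_one_iff]
    apply div_nonpos_of_nonpos_of_nonneg <;> [norm_num; positivity]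
  have h2 := hB z (mem_closedBall_zero_iff.2 h1)
  rw [Real.norm_eq_abs] at h2
  have h3 : (2 : ℝ) ^ i ≤ ((2 : ℝ) ^ (j₀ + i)) ^ 4 := by
    rw [← pow_mul]
    exact pow_le_pow_right₀ one_le_two (by omega)
  linarith

theorem kernel_le {m r s t : ℝ} (hm : 1 ≤ m) (hr : 0 < r) (hs : r * Real.exp (1 / m) ≤ s)
    (ht : t ≤ r) : t < s ∧ (s + t) / (s - t) ≤ 3 * m := by
  have hm0 : 0 < m := by linarith
  have h1 : r * (1 / m + 1) ≤ s := le_trans (by gcongr; exact Real.add_one_le_exp _) hs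
  have h2 : r * (1 + m) ≤ s * m := by
    have : r * (1 / m + 1) * m ≤ s * m := by gcongr
    calc r * (1 + m) = r * (1 / m + 1) * m := by field_simp
      _ ≤ _ := this
  have h3 : r < s := by
    by_contra h
    have : s * m ≤ r * m := by gcongr; exact not_lt.1 h
    nlinarith
  refine ⟨by linarith, ?_⟩
  rw [div_le_iff₀ (by linarith)]
  have h4 : (s + r) * m ≤ (3 * m * (s - r)) * m := by nlinarith
  have h5 : s + r ≤ 3 * m * (s - r) := le_of_mul_le_mul_right h4 hm0
  nlinarith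

theorem mean_zero {f : ℂ → ℂ} (hf : Differentiable ℂ f) (hne : ∀ z, f z ≠ 0) (h0 : f 0 = 1)
    (s : ℝ) : Real.circleAverage (fun z => Real.log ‖f z‖) 0 s = 0 := by
  have ha : AnalyticOnNhd ℂ f (closedBall 0 |s|) := fun z _ => hf.analyticAt z
  have := ha.circleAverage_log_norm_of_ne_zero (fun z _ => hne z)
  simpa [h0] using this

theorem shift_summable {a : ℕ → ℂ} {f : ℂ → ℂ}
    (h : ∀ z : ℂ, HasSum (fun k : ℕ => a k * z ^ k) (f z)) (N : ℕ) (z : ℂ) :
    Summable fun k : ℕ => a (k + N) * z ^ k := by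
  set R : ℝ := ‖z‖ + 1 with hR
  have hR1 : 1 ≤ R := by rw [hR]; linarith [norm_nonneg z]
  have hs : Summable fun k : ℕ => ‖a k * (R : ℂ) ^ k‖ := (h (R : ℂ)).summable.norm
  refine Summable.of_norm_bounded ((summable_nat_add_iff N).2 hs) fun k => ?_
  simp only [norm_mul, norm_pow, Complex.norm_real, Real.norm_eq_abs,
    abs_of_nonneg (zero_le_one.trans hR1)]
  gcongr
  calc ‖z‖ ^ k ≤ R ^ k := by gcongr; linarith
    _ ≤ R ^ (k + N) := pow_le_pow_right₀ hR1 (Nat.le_add_right _ _)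

/-- Choice of the index. -/
theorem choose_index {a : ℕ → ℂ} {f : ℂ → ℂ}
    (h : ∀ z : ℂ, HasSum (fun k : ℕ => a k * z ^ k) (f z)) (h0 : a 0 = 1) {m ρ : ℝ}
    (hm : 1000 ≤ m) (hρ : 0 < ρ)
    (hC : ∀ z ∈ sphere (0 : ℂ) (ρ * Real.exp (1 / m)), ‖f z‖ ≤ Real.exp (16 * m ^ 4)) :
    ∃ N : ℕ, Real.exp (-9 * m) ≤ ‖a N‖ * ρ ^ N ∧
      ∀ z : ℂ, ‖z‖ ≤ ρ → ‖f z - ∑ k ∈ Finset.range (N + 1), a k * z ^ k‖ ≤ 1 / m := by
  have hm0 : 0 < m := by linarith
  set K : ℝ := m ^ 6 with hK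
  have hK0 : 0 < K := by positivity
  have hc : ∀ k : ℕ, ‖a k‖ * ρ ^ k ≤ Real.exp (16 * m ^ 4 - k / m) := by
    intro k
    have h1 := cauchy h (by positivity) hC k
    rw [mul_pow, ← Real.exp_nat_mul, ← mul_assoc] at h1
    rw [Real.exp_sub, le_div_iff₀ (Real.exp_pos _)]
    rwa [mul_one_div] at h1
  set G : Set ℕ := {k | Real.exp (-8 * m - k / K) ≤ ‖a k‖ * ρ ^ k} with hG
  have hG0 : 0 ∈ G := by
    simp only [hG, Set.mem_ofPred_eq, h0]
    simp only [Nat.cast_zero, zero_div, sub_zero, norm_one, pow_zero, mul_one]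
    rw [Real.exp_le_one_iff]; linarith
  have hGK : ∀ k ∈ G, (k : ℝ) ≤ K := by
    intro k hk
    have h1 := Real.exp_le_exp.1 (le_trans hk (hc k))
    have hk0 : (0 : ℝ) ≤ k := Nat.cast_nonneg k
    have hm5 : 1000 * m ^ 5 ≤ K := by rw [hK]; nlinarith [pow_pos hm0 5]
    have hmm : m ≤ m ^ 4 := le_self_pow₀ (by linarith) (by norm_num)
    have hmm5 : m ≤ m ^ 5 := le_self_pow₀ (by linarith) (by norm_num)
    have h2 : (k : ℝ) / K ≤ k / (2 * m) := by
      gcongr
      linarith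
    have h3 : (k : ℝ) / (2 * m) ≤ 24 * m ^ 4 := by
      have : (k : ℝ) / m = 2 * (k / (2 * m)) := by field_simp
      linarith
    rw [div_le_iff₀ (by positivity)] at h3
    have : 24 * m ^ 4 * (2 * m) = 48 * m ^ 5 := by ring
    linarith [pow_pos hm0 5]
  have hbdd : BddAbove G := ⟨⌈K⌉₊, fun k hk => by
    have := (hGK k hk).trans (Nat.le_ceil K)
    exact_mod_cast this⟩
  set N := sSup G with hN
  have hNG : N ∈ G := Nat.sSup_mem ⟨0, hG0⟩ hbdd
  have hNmax : ∀ k, N < k → ‖a k‖ * ρ ^ k ≤ Real.exp (-8 * m - k / K) := by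
    intro k hk
    by_contra hcon
    have : k ∈ G := le_of_lt (not_le.1 hcon)
    exact absurd (le_csSup hbdd this) (not_le.2 hk)
  refine ⟨N, le_trans ?_ hNG, ?_⟩
  · rw [Real.exp_le_exp]
    have : (N : ℝ) / K ≤ 1 := (div_le_one hK0).2 (hGK N hNG)
    linarith
  · intro z hz
    set x : ℝ := Real.exp (-1 / K) with hx
    have hx0 : 0 < x := Real.exp_pos _
    have hx1 : x * (1 + K) ≤ K := by
      have h1 := Real.add_one_le_exp (1 / K)
      have h2 : x * Real.exp (1 / K) = 1 := by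
        rw [hx, ← Real.exp_add]
        have : -1 / K + 1 / K = 0 := by ring
        rw [this, Real.exp_zero]
      have h3 : x * (1 / K + 1) ≤ 1 :=
        le_trans (mul_le_mul_of_nonneg_left h1 hx0.le) h2.le
      calc x * (1 + K) = x * (1 / K + 1) * K := by field_simp
        _ ≤ 1 * K := by gcongr
        _ = K := one_mul _
    have hx2 : x < 1 := by
      by_contra hcon
      have : 1 * (1 + K) ≤ x * (1 + K) := by gcongr; exact not_lt.1 hcon
      linarith
    have h1 := (hasSum_nat_add_iff' (N + 1)).2 (h z)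
    have h2 := (hasSum_geometric_of_lt_one hx0.le hx2).mul_left (Real.exp (-8 * m))
    have h3 := h1.norm_le_of_bounded h2 (fun k => by
      rw [norm_mul, norm_pow]
      calc ‖a (k + (N + 1))‖ * ‖z‖ ^ (k + (N + 1)) ≤ ‖a (k + (N + 1))‖ * ρ ^ (k + (N + 1)) := by
            gcongr
        _ ≤ Real.exp (-8 * m - (k + (N + 1) : ℕ) / K) := hNmax _ (by omega)
        _ ≤ Real.exp (-8 * m) * x ^ k := by
            rw [hx, ← Real.exp_nat_mul, ← Real.exp_add, Real.exp_le_exp]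
            have : (k : ℝ) / K ≤ (k + (N + 1) : ℕ) / K := by
              gcongr; omega
            have e : (k : ℝ) * (-1 / K) = -(k / K) := by ring
            linarith)
    refine h3.trans ?_
    have h4 : (1 - x)⁻¹ ≤ 1 + K := by
      rw [inv_le_comm₀ (by linarith) (by positivity), inv_eq_one_div, div_le_iff₀ (by positivity)]
      linarith
    have h5 : m ^ 8 ≤ Real.exp (8 * m) := by
      have : m ≤ Real.exp m := by linarith [Real.add_one_le_exp m]
      calc m ^ 8 ≤ Real.exp m ^ 8 := by gcongr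
        _ = Real.exp (8 * m) := by rw [← Real.exp_nat_mul]; norm_num
    have h6 : Real.exp (-8 * m) ≤ 1 / m ^ 8 := by
      rw [neg_mul, Real.exp_neg, one_div]
      gcongr
    have h7 : 1 + K ≤ m ^ 7 := by
      have : (1 : ℝ) ≤ m ^ 6 := one_le_pow₀ (by linarith)
      rw [hK]; nlinarith
    calc Real.exp (-8 * m) * (1 - x)⁻¹ ≤ 1 / m ^ 8 * m ^ 7 := by
          gcongr
          exact h4.trans h7
      _ = 1 / m := by field_simp

theorem contra {a : ℕ → ℂ} {f : ℂ → ℂ}
    (h : ∀ z : ℂ, HasSum (fun k : ℕ => a k * z ^ k) (f z)) (h0 : a 0 = 1) (hne : ∀ z, f z ≠ 0)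
    {m r : ℝ} (hm : 1000 ≤ m) (hr : 0 < r)
    (H : ∀ (n : ℕ) (z : ℂ), ∑ k ∈ Finset.range (n + 1), a k * z ^ k = 0 → 3 / m ≤ ‖f z‖)
    {z₀ : ℂ} (hz₀ : ‖z₀‖ ≤ r) (hbig : m ^ 4 ≤ |Real.log ‖f z₀‖|)
    (hA : ∀ z : ℂ, ‖z‖ ≤ r * Real.exp (3 / m) → |Real.log ‖f z‖| ≤ 16 * m ^ 4) : False := by
  have hm0 : 0 < m := by linarith
  have hd := diff_of_hasSum h
  have hf0 : f 0 = 1 := by
    have h1 := h 0
    have h2 : HasSum (fun k : ℕ => a k * (0 : ℂ) ^ k) (a 0 * (0 : ℂ) ^ 0) :=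
      hasSum_single 0 (fun k hk => by simp [hk])
    rw [h1.unique h2]; simp [h0]
  have hpos : ∀ z, 0 < ‖f z‖ := fun z => norm_pos_iff.2 (hne z)
  have huc : Continuous fun z => Real.log ‖f z‖ :=
    hd.continuous.norm.log (fun z => (hpos z).ne')
  set A : ℝ := 16 * m ^ 4 with hAdef
  have hA0 : 0 < A := by positivity
  set ρ : ℝ := r * Real.exp (2 / m) with hρ
  have hρ0 : 0 < ρ := by positivity
  have hρR : ρ * Real.exp (1 / m) = r * Real.exp (3 / m) := by
    rw [hρ, mul_assoc, ← Real.exp_add]; congr 2; ring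
  have hρR' : ρ ≤ r * Real.exp (3 / m) := by
    rw [← hρR]
    exact le_mul_of_one_le_right hρ0.le (Real.one_le_exp (by positivity))
  obtain ⟨N, hN1, htail⟩ := choose_index h h0 hm hρ0 (by
    intro z hz
    rw [mem_sphere_zero_iff_norm, hρR] at hz
    have := (abs_le.1 (hA z hz.le)).2
    rwa [Real.log_le_iff_le_exp (hpos z)] at this)
  have haN : a N ≠ 0 := by
    intro h1
    rw [h1, norm_zero, zero_mul] at hN1
    exact absurd hN1 (not_le.2 (Real.exp_pos _))
  have hm13 : 1 / m < 3 / m := by gcongr; norm_num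
  have hm23 : 2 / m < 3 / m := by gcongr; norm_num
  have hm1 : 2 / m ≤ 1 := by rw [div_le_one hm0]; linarith
  have hm1' : 1 / m ≤ 1 := by rw [div_le_one hm0]; linarith
  obtain ⟨hcN, hSN⟩ := poly_bounds a N h0 haN hρ0.le (by
    intro z hz h1
    have h2 := htail z hz
    have h3 := H N z h1
    rw [h1, sub_zero] at h2
    linarith)
  -- lower bound for N
  have hNlow : 2 * m ^ 2 ≤ N := by
    obtain ⟨k1, k2⟩ := kernel_le (m := m) (s := ρ) (t := ‖z₀‖) (by linarith) hr
      (by rw [hρ]; gcongr; norm_num) hz₀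
    have h1 : Real.circleAverage (fun z => max (Real.log ‖f z‖) 0) 0 ρ ≤ N + 1 := by
      refine Real.circleAverage_mono_on_of_le_circle
        (huc.max continuous_const).continuousOn.circleIntegrable' ?_
      intro z hz
      rw [abs_of_pos hρ0, mem_sphere_zero_iff_norm] at hz
      refine max_le ?_ (by positivity)
      rw [Real.log_le_iff_le_exp (hpos z)]
      have h2 := htail z hz.le
      have h3 := hSN z hz.le
      have h4 : ‖f z‖ ≤ 2 ^ N + 1 := by
        have := norm_le_norm_sub_add (f z) (∑ k ∈ Finset.range (N + 1), a k * z ^ k)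
        linarith
      have h5 : (2 : ℝ) ^ (N + 1) ≤ Real.exp (N + 1) := by
        have : (2 : ℝ) ≤ Real.exp 1 := by linarith [Real.add_one_le_exp 1]
        calc (2 : ℝ) ^ (N + 1) ≤ Real.exp 1 ^ (N + 1) := by gcongr
          _ = _ := by rw [← Real.exp_nat_mul]; simp
      have h6 : (1 : ℝ) ≤ 2 ^ N := one_le_pow₀ one_le_two
      rw [pow_succ] at h5
      linarith
    have h2 := poisson_bound hd hne hf0 k1 h1
    have h3 : m ^ 4 ≤ 3 * m * (N + 1) := hbig.trans (h2.trans (by gcongr))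
    have h4 : m ^ 3 ≤ 3 * (N + 1) := by
      have : m ^ 3 * m ≤ 3 * (N + 1) * m := by linarith
      exact le_of_mul_le_mul_right this hm0
    have h5 : 1000 * m ^ 2 ≤ m ^ 3 := by nlinarith [pow_pos hm0 2]
    have h6 : 1 ≤ m ^ 2 := one_le_pow₀ (by linarith)
    linarith
  have hNpos : (0 : ℝ) < N := lt_of_lt_of_le (by positivity) hNlow
  obtain ⟨n, rfl⟩ : ∃ n, N = n + 1 := ⟨N - 1, by
    have : 0 < N := by exact_mod_cast hNpos
    omega⟩
  set θ : ℝ := Real.exp (-m / (n + 1 : ℕ)) with hθ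
  have hθ0 : 0 < θ := Real.exp_pos _
  have hθN : θ ^ (n + 1) = Real.exp (-m) := by
    rw [hθ, ← Real.exp_nat_mul]; congr 1; field_simp
  have hθ1 : θ < 1 := by
    rw [hθ, Real.exp_lt_one_iff]
    exact div_neg_of_neg_of_pos (by linarith) hNpos
  have hem : Real.exp (-m) ≤ 1 / m := by
    rw [Real.exp_neg, one_div]
    gcongr
    linarith [Real.add_one_le_exp m]
  set s : ℝ := ρ * θ with hs
  have hs0 : 0 < s := by positivity
  have hsρ : s ≤ ρ := mul_le_of_le_one_right hρ0.le hθ1.le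
  set T : ℂ → ℂ := fun z => f z - ∑ k ∈ Finset.range (n + 1), a k * z ^ k with hT
  have hTd : Differentiable ℂ T := by
    simp only [hT]
    fun_prop
  have hTle : ∀ z : ℂ, ‖z‖ ≤ s → ‖T z‖ ≤ 2 / m := by
    intro z hz
    have h1 := htail z (hz.trans hsρ)
    have h2 : T z = (f z - ∑ k ∈ Finset.range (n + 1 + 1), a k * z ^ k)
        + a (n + 1) * z ^ (n + 1) := by
      rw [Finset.sum_range_succ _ (n + 1)]; simp only [hT]; ring
    have h3 : ‖a (n + 1) * z ^ (n + 1)‖ ≤ 1 / m := by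
      rw [norm_mul, norm_pow]
      calc ‖a (n + 1)‖ * ‖z‖ ^ (n + 1) ≤ ‖a (n + 1)‖ * (ρ * θ) ^ (n + 1) := by gcongr
        _ = (‖a (n + 1)‖ * ρ ^ (n + 1)) * Real.exp (-m) := by rw [mul_pow, hθN, mul_assoc]
        _ ≤ 1 * (1 / m) := by gcongr
        _ = 1 / m := one_mul _
    rw [h2]
    refine (norm_add_le _ _).trans ?_
    have : 2 / m = 1 / m + 1 / m := by ring
    linarith
  set φ : ℂ → ℂ := fun z => ∑' k : ℕ, a (k + (n + 1)) * z ^ k with hφ
  have hφs : ∀ z, HasSum (fun k : ℕ => a (k + (n + 1)) * z ^ k) (φ z) :=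
    fun z => (shift_summable h (n + 1) z).hasSum
  have hφd : Differentiable ℂ φ := diff_of_hasSum hφs
  have hφ0 : φ 0 = a (n + 1) := by
    have h2 : HasSum (fun k : ℕ => a (k + (n + 1)) * (0 : ℂ) ^ k)
        (a (0 + (n + 1)) * (0 : ℂ) ^ 0) := hasSum_single 0 (fun k hk => by simp [hk])
    rw [(hφs 0).unique h2]; simp
  have hTφ : ∀ z, T z = z ^ (n + 1) * φ z := by
    intro z
    have h1 := (hasSum_nat_add_iff' (n + 1)).2 (h z)
    have h2 := (hφs z).mul_left (z ^ (n + 1))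
    refine h1.unique ?_
    have e : (fun k : ℕ => a (k + (n + 1)) * z ^ (k + (n + 1))) =
        fun k : ℕ => z ^ (n + 1) * (a (k + (n + 1)) * z ^ k) := by
      funext k; ring
    rw [e]
    exact h2
  have hinv : ∀ z : ℂ, ‖z‖ ≤ ρ → ‖f z‖⁻¹ ≤ Real.exp A := by
    intro z hz
    have := (abs_le.1 (hA z (hz.trans hρR'))).1
    rw [← Real.log_le_iff_le_exp (inv_pos.2 (hpos z)), Real.log_inv]
    linarith
  have hexp : 8 * (A + 1) * Real.exp (-m) ≤ 1 := by
    have h1 := Real.pow_div_factorial_le_exp m hm0.le 6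
    have h2 : (Nat.factorial 6 : ℝ) = 720 := by norm_num [Nat.factorial]
    rw [h2] at h1
    have h3 : 1000000 ≤ m ^ 2 := by nlinarith
    have h4 : 1 ≤ m ^ 4 := one_le_pow₀ (by linarith)
    have h5 : 1000000 * m ^ 4 ≤ m ^ 6 := by
      calc 1000000 * m ^ 4 ≤ m ^ 2 * m ^ 4 := by gcongr
        _ = m ^ 6 := by ring
    rw [Real.exp_neg, ← div_eq_mul_inv, div_le_one (Real.exp_pos _), hAdef]
    linarith
  have hcore : ∀ z : ℂ, ‖z‖ = s * θ → ‖T z‖ ≤ ‖f z‖ := by
    intro z hz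
    have h1 : ‖T z / f z‖ ≤ 1 := by
      refine core (h := fun z => T z / f z) (s := s) (M := A + 1) (τ := Real.exp (-m)) (n := n)
        hs0 (by positivity) (hTd.div hd hne).differentiableOn ?_ ?_ ?_ ?_ hexp ?_ ?_
      · intro w hw h2
        rw [div_eq_one_iff_eq (hne w)] at h2
        have h3 := hTle w (mem_ball_zero_iff.1 hw).le
        have h4 : ∑ k ∈ Finset.range (n + 1), a k * w ^ k = 0 := by
          simp only [hT] at h2
          exact sub_eq_self.1 h2
        have h5 := H n w h4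
        rw [h2] at h3
        linarith
      · have h2 : (fun z => T z / f z) = fun z => z ^ (n + 1) * (φ z / f z) := by
          funext w; rw [hTφ, mul_div_assoc]
        rw [h2]
        have h3 : (fun z => φ z / f z) =O[𝓝 0] (fun _ : ℂ => (1 : ℂ)) :=
          ((hφd.div hd hne).continuous.continuousAt.tendsto).isBigO_one ℂ
        simpa using (isBigO_refl (fun z : ℂ => z ^ (n + 1)) (𝓝 0)).mul h3
      · intro w hw
        have hw' := (mem_ball_zero_iff.1 hw).le
        have h2 := hTle w hw'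
        have h3 := hinv w (hw'.trans hsρ)
        have h4 : ‖T w / f w‖ ≤ Real.exp A := by
          rw [norm_div, div_eq_mul_inv]
          calc ‖T w‖ * ‖f w‖⁻¹ ≤ 1 * Real.exp A := by
                gcongr
                linarith
            _ = _ := one_mul _
        have h5 : 1 ≤ Real.exp A := Real.one_le_exp hA0.le
        have h6 : (2 : ℝ) ≤ Real.exp 1 := by linarith [Real.add_one_le_exp 1]
        calc ‖1 - T w / f w‖ ≤ ‖(1 : ℂ)‖ + ‖T w / f w‖ := norm_sub_le _ _
          _ ≤ Real.exp A * 2 := by rw [norm_one]; linarith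
          _ ≤ Real.exp A * Real.exp 1 := by gcongr
          _ = _ := by rw [Real.exp_add]
      · refine hem.trans ?_
        rw [div_le_div_iff₀ hm0 (by norm_num)]; linarith
      · rw [mem_ball_zero_iff, hz]
        exact mul_lt_of_lt_one_right hs0 hθ1
      · rw [hz, mul_div_cancel_left₀ _ hs0.ne', hθN]
    rwa [norm_div, div_le_one (hpos z)] at h1
  set s' : ℝ := s * θ with hs'
  have hs'0 : 0 < s' := by positivity
  have hs's : s' ≤ s := mul_le_of_le_one_right hs0.le hθ1.le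
  set C : ℝ := Real.exp A * s' ^ (n + 1) with hC
  have hC0 : 0 < C := by positivity
  set ψ : ℂ → ℂ := fun z => (C : ℂ) * φ z with hψ
  have hψd : Differentiable ℂ ψ := hφd.const_mul _
  have hψ0 : ψ 0 ≠ 0 := by
    simp only [hψ, hφ0]
    exact mul_ne_zero (by exact_mod_cast hC0.ne') haN
  have hJ := jensen_ineq hψd hψ0 hs'0
  have hp : CircleIntegrable (fun z => max (Real.log ‖f z‖) 0) 0 s' :=
    (huc.max continuous_const).continuousOn.circleIntegrable'
  have hui : CircleIntegrable (fun z => Real.log ‖f z‖) 0 s' := huc.continuousOn.circleIntegrable'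
  have hJ2 : Real.circleAverage (fun z => Real.log ‖ψ z‖) 0 s' ≤
      Real.circleAverage (fun z => A + (Real.log ‖f z‖ - max (Real.log ‖f z‖) 0)) 0 s' := by
    refine Real.circleAverage_mono ?_ ?_ ?_
    · have : AnalyticOnNhd ℂ ψ (sphere 0 |s'|) := fun z _ => hψd.analyticAt z
      exact this.meromorphicOn.circleIntegrable_log_norm
    · have : Continuous fun z => A + (Real.log ‖f z‖ - max (Real.log ‖f z‖) 0) := by fun_prop
      exact this.continuousOn.circleIntegrable'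
    · intro z hz
      rw [abs_of_pos hs'0, mem_sphere_zero_iff_norm] at hz
      have h1 := hcore z hz
      have h2 : ‖T z‖ ≤ 1 := (hTle z (hz.le.trans hs's)).trans hm1
      have h3 := (abs_le.1 (hA z ((hz.le.trans (hs's.trans hsρ)).trans hρR'))).1
      have h4 : ‖ψ z‖ = Real.exp A * ‖T z‖ := by
        simp only [hψ, hTφ, norm_mul, norm_pow, hz, Complex.norm_real, Real.norm_eq_abs,
          abs_of_pos hC0]
        rw [hC, mul_assoc]
      rw [h4]
      rcases (norm_nonneg (T z)).eq_or_lt with h5 | h5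
      · rw [← h5, mul_zero, Real.log_zero]
        rcases le_total (Real.log ‖f z‖) 0 with h6 | h6
        · rw [max_eq_right h6]; linarith
        · rw [max_eq_left h6]; linarith
      · rw [Real.log_mul (Real.exp_pos _).ne' h5.ne', Real.log_exp]
        rcases le_total (Real.log ‖f z‖) 0 with h6 | h6
        · rw [max_eq_right h6]
          have := Real.log_le_log h5 h1
          linarith
        · rw [max_eq_left h6]
          have := Real.log_nonpos h5.le h2
          linarith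
  have hsub : CircleIntegrable (fun z => Real.log ‖f z‖ - max (Real.log ‖f z‖) 0) 0 s' :=
    hui.sub hp
  rw [Real.circleAverage_fun_add (circleIntegrable_const _ _ _) hsub,
    Real.circleAverage_const, Real.circleAverage_fun_sub hui hp, mean_zero hd hne hf0] at hJ2
  have hlow : A - 11 * m ≤ Real.log ‖ψ 0‖ := by
    rw [Real.le_log_iff_exp_le (norm_pos_iff.2 hψ0)]
    have h1 : ‖ψ 0‖ = Real.exp A * (‖a (n + 1)‖ * ρ ^ (n + 1)) * Real.exp (-m) * Real.exp (-m) := by
      simp only [hψ, hφ0, norm_mul, Complex.norm_real, Real.norm_eq_abs, abs_of_pos hC0]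
      rw [hC, hs', hs, mul_pow, mul_pow, hθN]
      ring
    rw [h1]
    calc Real.exp (A - 11 * m)
        = Real.exp A * Real.exp (-9 * m) * Real.exp (-m) * Real.exp (-m) := by
          simp only [← Real.exp_add]; congr 1; ring
      _ ≤ _ := by gcongr
  have hB : Real.circleAverage (fun z => max (Real.log ‖f z‖) 0) 0 s' ≤ 11 * m := by linarith
  obtain ⟨k1, k2⟩ := kernel_le (m := m) (s := s') (t := ‖z₀‖) (by linarith) hr (by
    rw [hs', hs, hρ, hθ, mul_assoc, mul_assoc, ← Real.exp_add, ← Real.exp_add]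
    gcongr
    have h1 : m / (n + 1 : ℕ) ≤ m / (2 * m ^ 2) := by gcongr
    have h2 : m / (2 * m ^ 2) = 1 / m / 2 := by field_simp
    have h3 : 2 / m = 2 * (1 / m) := by ring
    rw [neg_div]
    linarith) hz₀
  have h2 := poisson_bound hd hne hf0 k1 hB
  have h3 : m ^ 4 ≤ 3 * m * (11 * m) := hbig.trans (h2.trans (by gcongr))
  have h4 : 1000000 ≤ m ^ 2 := by nlinarith
  have h5 : 1000000 * m ^ 2 ≤ m ^ 4 := by
    calc 1000000 * m ^ 2 ≤ m ^ 2 * m ^ 2 := by gcongr
      _ = m ^ 4 := by ring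
  nlinarith

theorem main (a : ℕ → ℂ) (f : ℂ → ℂ)
    (h : ∀ z : ℂ, HasSum (fun k : ℕ => a k * z ^ k) (f z)) (hne : ∀ z : ℂ, f z ≠ 0)
    (hnc : ∃ z w : ℂ, f z ≠ f w) (ε : ℝ) (hε : 0 < ε) :
    ∃ z₀ : ℂ, ∃ n : ℕ, (∑ k ∈ Finset.range (n + 1), a k * z₀ ^ k) = 0 ∧ ‖f z₀‖ < ε := by
  by_contra hcon
  push Not at hcon
  have hf0 : f 0 = a 0 := by
    have h2 : HasSum (fun k : ℕ => a k * (0 : ℂ) ^ k) (a 0 * (0 : ℂ) ^ 0) :=
      hasSum_single 0 (fun k hk => by simp [hk])
    rw [(h 0).unique h2]; simp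
  have ha0 : a 0 ≠ 0 := hf0 ▸ hne 0
  set b : ℕ → ℂ := fun k => (a 0)⁻¹ * a k with hb
  set g : ℂ → ℂ := fun z => (a 0)⁻¹ * f z with hg
  have hbg : ∀ z : ℂ, HasSum (fun k : ℕ => b k * z ^ k) (g z) := by
    intro z
    simpa [hb, hg, mul_assoc] using (h z).mul_left (a 0)⁻¹
  have hgne : ∀ z, g z ≠ 0 := fun z => mul_ne_zero (inv_ne_zero ha0) (hne z)
  have hgd := diff_of_hasSum hbg
  have huc : Continuous fun z => Real.log ‖g z‖ :=
    hgd.continuous.norm.log (fun z => norm_ne_zero_iff.2 (hgne z))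
  have hub : ∀ B : ℝ, ∃ z, B ≤ |Real.log ‖g z‖| := by
    intro B
    by_contra hB
    push Not at hB
    obtain ⟨z, w, hzw⟩ := hnc
    apply hzw
    have h1 : g z = g w := by
      refine hgd.apply_eq_apply_of_bounded ?_ z w
      refine (isBounded_closedBall (x := (0 : ℂ)) (r := Real.exp B)).subset ?_
      rintro _ ⟨x, rfl⟩
      rw [mem_closedBall_zero_iff, ← Real.log_le_iff_le_exp (norm_pos_iff.2 (hgne x))]
      exact (abs_lt.1 (hB x)).2.le
    exact mul_left_cancel₀ (inv_ne_zero ha0) h1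
  set δ : ℝ := ‖a 0‖⁻¹ * ε with hδ
  have hδ0 : 0 < δ := mul_pos (inv_pos.2 (norm_pos_iff.2 ha0)) hε
  obtain ⟨j₀, hj₀⟩ := pow_unbounded_of_one_lt (1000 + 3 / δ) (one_lt_two (α := ℝ))
  obtain ⟨j, hj, r, hr, z₀, hz₀, hbig, hA⟩ := growth huc hub j₀
  have hm : 1000 + 3 / δ ≤ (2 : ℝ) ^ j := hj₀.le.trans (pow_le_pow_right₀ one_le_two hj)
  have h3δ : 0 < 3 / δ := by positivity
  refine contra hbg (inv_mul_cancel₀ ha0) hgne (m := 2 ^ j) (by linarith) hr ?_ hz₀ hbig hA
  intro n z hz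
  have h1 : ∑ k ∈ Finset.range (n + 1), a k * z ^ k = 0 := by
    simp only [hb, mul_assoc, ← Finset.mul_sum] at hz
    exact (mul_eq_zero.1 hz).resolve_left (inv_ne_zero ha0)
  have h2 := hcon z n h1
  have h3 : δ ≤ ‖g z‖ := by
    simp only [hg, hδ, norm_mul, norm_inv]
    gcongr
  refine le_trans ?_ h3
  rw [div_le_iff₀ (by positivity), ← div_le_iff₀' hδ0]
  linarith

end Pool.Agent.Lib.MP_5d54af_an
end
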